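import Pool.Agent.W500.FL.Stm

set_option autoImplicit false

namespace Pool.Agent.W636.FL.R

open Polynomial Pool.Agent.W500.FL

theorem main : S_R := by
  classical
  intro K _ u V hu hd hV hdeg
  have hu0 : u ≠ 0 := hu.ne_zero
  have hsq : Squarefree u := by
    have : u.Separable := by
      rw [Polynomial.Separable, hd]; exact isCoprime_one_right
    exact this.squarefree
  set g := EuclideanDomain.gcd u V with hg
  have hgu : g ∣ u := EuclideanDomain.gcd_dvd_left u V
  have hgV : g ∣ V := EuclideanDomain.gcd_dvd_right u V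
  have hg0 : g ≠ 0 := fun h => hu0 (by rw [h] at hgu; exact zero_dvd_iff.mp hgu)
  set σ := g * C (g.leadingCoeff)⁻¹ with hσ
  have hσm : σ.Monic := monic_mul_leadingCoeff_inv hg0
  have hunit : IsUnit (C (g.leadingCoeff)⁻¹ : K[X]) := by
    rw [isUnit_C]; exact (IsUnit.mk0 _ (inv_ne_zero (leadingCoeff_ne_zero.mpr hg0)))
  have hσg : σ ∣ g := (hunit.mul_right_dvd).mpr dvd_rfl
  obtain ⟨ρ, hρ⟩ := hσg.trans hgu
  have hρm : ρ.Monic := by
    rw [hρ] at hu; exact hσm.of_mul_monic_left hu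
  have hσV := hσg.trans hgV
  refine ⟨σ, ρ, hσm, hρm, hρ, hσV, ?_, ?_, ?_⟩
  · refine isCoprime_of_irreducible_dvd (fun h => hρm.ne_zero h.1) ?_
    intro z hz hzρ hzV
    have hzu : z ∣ u := by rw [hρ]; exact hzρ.mul_left σ
    have hzg : z ∣ g := EuclideanDomain.dvd_gcd hzu hzV
    have hzσ : z ∣ σ := hzg.mul_right _
    have : z * z ∣ u := by rw [hρ]; exact mul_dvd_mul hzσ hzρ
    exact hz.not_isUnit (hsq z this)
  · exact hsq.squarefree_of_dvd ⟨σ, by rw [hρ]; ring⟩
  · have h1 : u.natDegree = σ.natDegree + ρ.natDegree := by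
      rw [hρ]; exact hσm.natDegree_mul hρm
    have h2 : σ.natDegree ≤ V.natDegree := natDegree_le_of_dvd hσV hV.ne_zero
    omega

end Pool.Agent.W636.FL.R
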